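import Pool.Agent.MWN.StmtsA

/-!
Block MWN, row NDC (MP_23468a_al): decomposition of an instance into blocks.
-/

namespace Pool.Agent.MWN.H80

open Pool.Agent.Helper14_MV Pool.Agent.Helper2_MV Pool.Agent.MVO Pool.Agent.MWL Pool.Agent.MWS
  Pool.Agent.MWF Pool.Agent.MWN

/-- concatenation of the lists `A 0, …, A k` -/
def cat : ℕ → (ℕ → List ℕ) → List ℕ
  | 0, A => A 0
  | k + 1, A => cat k A ++ A (k + 1)

theorem cat_split (N : ℕ) : ∀ (k m : ℕ) (A : ℕ → List ℕ),
    cat k A = (List.range m).map (fun j => N + j) →
      ∃ g : ℕ → ℕ, (∀ i j, i ≤ j → g i ≤ g j) ∧ (∀ i, g i ≤ k) ∧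
        ∀ t ≤ k, A t = ((List.range m).filter (fun j => decide (g j = t))).map
          (fun j => N + j) := by
  intro k
  induction k with
  | zero =>
    intro m A h
    refine ⟨fun _ => 0, fun _ _ _ => le_refl _, fun _ => le_refl _, fun t ht => ?_⟩
    have ht0 : t = 0 := by omega
    subst ht0
    have h1 : (List.range m).filter (fun _ => decide ((0 : ℕ) = 0)) = List.range m :=
      List.filter_eq_self.2 (fun _ _ => by simp)
    rw [h1]
    exact h
  | succ k ih =>
    intro m A h
    have h : cat k A ++ A (k + 1) = (List.range m).map (fun j => N + j) := h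
    obtain ⟨R1, R2, hR, h1, h2⟩ := List.map_eq_append_iff.1 h.symm
    have hl : R1.length ≤ m := by
      have := congrArg List.length hR
      rw [List.length_range, List.length_append] at this
      omega
    have e1 : R1 = List.range R1.length := by
      have h3 : (List.range m).take R1.length = R1 := by rw [hR]; exact List.take_left
      have h4 : (List.range m).take R1.length = List.range (min R1.length m) :=
        List.take_range
      rw [min_eq_left hl] at h4
      rw [← h3, h4, List.length_range]
    have hpw : (R1 ++ R2).Pairwise (· < ·) := by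
      rw [← hR]
      exact List.pairwise_lt_range
    have hlt : ∀ j ∈ R1, j < R1.length := by
      intro j hj
      rw [e1, List.mem_range] at hj
      exact hj
    have hge : ∀ j ∈ R2, R1.length ≤ j := by
      intro j hj
      by_contra hlt'
      have h5 : j ∈ R1 := by
        rw [e1, List.mem_range]
        omega
      have h6 := (List.pairwise_append.1 hpw).2.2 j h5 j hj
      omega
    obtain ⟨g0, hm, hb, hA⟩ := ih R1.length A (by rw [← e1]; exact h1.symm)
    refine ⟨fun j => if j < R1.length then g0 j else k + 1, ?_, ?_, ?_⟩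
    · intro i j hij
      by_cases hj : j < R1.length
      · simp only
        rw [if_pos hj, if_pos (lt_of_le_of_lt hij hj)]
        exact hm i j hij
      · simp only
        rw [if_neg hj]
        by_cases hi : i < R1.length
        · rw [if_pos hi]
          exact (hb i).trans (by omega)
        · rw [if_neg hi]
    · intro i
      by_cases hi : i < R1.length
      · simp only
        rw [if_pos hi]
        exact (hb i).trans (by omega)
      · simp only
        rw [if_neg hi]
    · intro t ht
      rw [hR, List.filter_append, List.map_append]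
      by_cases htk : t = k + 1
      · subst htk
        have h7 : R1.filter (fun j => decide ((if j < R1.length then g0 j else k + 1) = k + 1)) =
            [] := by
          rw [List.filter_eq_nil_iff]
          intro j hj
          rw [decide_eq_true_iff, if_pos (hlt j hj)]
          have := hb j
          omega
        have h8 : R2.filter (fun j => decide ((if j < R1.length then g0 j else k + 1) = k + 1)) =
            R2 := by
          rw [List.filter_eq_self]
          intro j hj
          rw [decide_eq_true_iff, if_neg (by have := hge j hj; omega)]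
        rw [h7, h8, List.map_nil, List.nil_append]
        exact h2.symm
      · have h7 : R1.filter (fun j => decide ((if j < R1.length then g0 j else k + 1) = t)) =
            R1.filter (fun j => decide (g0 j = t)) := by
          apply List.filter_congr
          intro j hj
          rw [if_pos (hlt j hj)]
        have h8 : R2.filter (fun j => decide ((if j < R1.length then g0 j else k + 1) = t)) =
            [] := by
          rw [List.filter_eq_nil_iff]
          intro j hj
          rw [decide_eq_true_iff, if_neg (by have := hge j hj; omega)]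
          omega
        rw [h7, h8, List.map_nil, List.append_nil, hA t (by omega), ← e1]

/-- the template of `(asm n V).flatMap f` -/
def tm (N : ℕ) (f : ℕ → List ℕ) : ℕ → List ℕ
  | 0 => [N]
  | n + 1 => tm N f n ++ (f (n + 2) ++ [N + (n + 1)])

theorem flat_fix {l : List ℕ} {h : ℕ → List ℕ} (hl : ∀ c ∈ l, h c = [c]) : l.flatMap h = l := by
  rw [flatMap_congr' (g := fun c => [c]) hl]
  exact flatMap_self l

theorem tm_flat (N : ℕ) (f V : ℕ → List ℕ) : ∀ n : ℕ,
    (∀ c, 2 ≤ c → c ≤ n + 1 → ∀ d ∈ f c, d < N) →
      (tm N f n).flatMap (hv N f V) = (asm n V).flatMap f := by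
  intro n
  induction n with
  | zero =>
    intro _
    simp [tm, asm, hv]
  | succ n ih =>
    intro h
    have h1 : (f (n + 2)).flatMap (hv N f V) = f (n + 2) := by
      apply flat_fix
      intro c hc
      have := h (n + 2) (by omega) (by omega) c hc
      unfold hv
      rw [if_neg (by omega)]
    have h2 : hv N f V (N + (n + 1)) = (V (n + 1)).flatMap f := by
      unfold hv
      rw [if_pos (by omega)]
      congr 1
      congr 1
      omega
    simp only [tm, asm]
    rw [List.flatMap_append, List.flatMap_append, ih (fun c hc hc' => h c hc (by omega)), h1,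
      List.flatMap_append, List.flatMap_cons]
    simp [h2]

theorem tm_filter (N : ℕ) (f : ℕ → List ℕ) : ∀ n : ℕ,
    (∀ c, 2 ≤ c → c ≤ n + 1 → ∀ d ∈ f c, d < N) →
      (tm N f n).filter (fun c => decide (N ≤ c)) = (List.range (n + 1)).map (fun j => N + j) := by
  intro n
  induction n with
  | zero =>
    intro _
    simp [tm]
  | succ n ih =>
    intro h
    have h1 : (f (n + 2)).filter (fun c => decide (N ≤ c)) = [] := by
      rw [List.filter_eq_nil_iff]
      intro c hc
      have := h (n + 2) (by omega) (by omega) c hc
      rw [decide_eq_true_iff]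
      omega
    have h2 : [N + (n + 1)].filter (fun c => decide (N ≤ c)) = [N + (n + 1)] := by
      rw [List.filter_eq_self]
      intro c hc
      rw [List.mem_singleton] at hc
      rw [decide_eq_true_iff]
      omega
    simp only [tm]
    rw [List.filter_append, List.filter_append, ih (fun c hc hc' => h c hc (by omega)), h1, h2,
      List.nil_append, List.range_succ (n := n + 1), List.map_append]
    rfl

theorem tm_mem (N : ℕ) (f : ℕ → List ℕ) : ∀ n c : ℕ, c ∈ tm N f n →
    (∃ j ≤ n, c = N + j) ∨ ∃ d, 2 ≤ d ∧ d ≤ n + 1 ∧ c ∈ f d := by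
  intro n
  induction n with
  | zero =>
    intro c hc
    simp only [tm, List.mem_singleton] at hc
    exact Or.inl ⟨0, le_refl _, hc⟩
  | succ n ih =>
    intro c hc
    simp only [tm, List.mem_append, List.mem_singleton] at hc
    rcases hc with hc | hc | hc
    · rcases ih c hc with ⟨j, hj, h⟩ | ⟨d, h1, h2, h3⟩
      · exact Or.inl ⟨j, by omega, h⟩
      · exact Or.inr ⟨d, h1, by omega, h3⟩
    · exact Or.inr ⟨n + 2, by omega, by omega, hc⟩
    · exact Or.inl ⟨n + 1, le_refl _, hc⟩

theorem asm_flat (K : ℕ) (h : ℕ → List ℕ) (hh : ∀ c, 2 ≤ c → c ≤ K + 1 → h c = [c])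
    (B : ℕ → List ℕ) : ∀ k ≤ K, (asm k B).flatMap h = asm k (fun j => (B j).flatMap h) := by
  intro k
  induction k with
  | zero => intro _; rfl
  | succ k ih =>
    intro hk
    simp only [asm]
    rw [List.flatMap_append, List.flatMap_cons, ih (by omega), hh (k + 2) (by omega) (by omega)]
    rfl

theorem asm_big (N K : ℕ) (hN : K + 1 < N) (B : ℕ → List ℕ) : ∀ k ≤ K,
    (asm k B).filter (fun c => decide (N ≤ c)) =
      cat k (fun t => (B t).filter (fun c => decide (N ≤ c))) := by
  intro k
  induction k with
  | zero => intro _; rfl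
  | succ k ih =>
    intro hk
    simp only [asm, cat]
    rw [List.filter_append, ih (by omega), List.filter_cons_of_neg (by
      rw [decide_eq_true_iff]; omega)]

theorem filter_flat (q : ℕ → Bool) (h : ℕ → List ℕ) : ∀ l : List ℕ,
    (∀ c ∈ l, (h c).filter q = [c].filter q) → (l.flatMap h).filter q = l.filter q := by
  intro l
  induction l with
  | nil => intro _; rfl
  | cons a l ih =>
    intro hl
    rw [List.flatMap_cons, List.filter_append, ih (fun c hc => hl c (List.mem_cons_of_mem _ hc)),
      hl a (List.mem_cons_self ..)]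
    rw [← List.filter_append]
    rfl

theorem ndc : NdcStmt := by
  intro k k1 f p q U W hW hU hf he
  set N := k + k1 + 2 with hN
  have hWok : BlkOk k W := by
    intro j hj c hc hs
    rcases hW j hj c hc with h | h <;> omega
  -- letters of the word
  have hmem : ∀ c ∈ asm k W, c = 0 ∨ c = 1 ∨ (2 ≤ c ∧ c ≤ k + 1) := by
    intro c hc
    rcases mem_asm.1 hc with h | ⟨j, hj, h⟩
    · exact Or.inr (Or.inr h)
    · rcases hW j hj c h with h | h
      · exact Or.inl h
      · exact Or.inr (Or.inl h)
  have hp : ∀ c ∈ p, c ∈ asm k W := fun c hc => by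
    rw [← he]; simp [hc]
  have hq : ∀ c ∈ q, c ∈ asm k W := fun c hc => by
    rw [← he]; simp [hc]
  have hfm : ∀ d, 2 ≤ d → d ≤ k1 + 1 → ∀ c ∈ f d, c ∈ asm k W := by
    intro d h1 h2 c hc
    rw [← he]
    have h3 : c ∈ (asm k1 U).flatMap f :=
      List.mem_flatMap.2 ⟨d, mem_asm.2 (Or.inl ⟨h1, h2⟩), hc⟩
    simp [h3]
  have hlt : ∀ c ∈ asm k W, c < N := by
    intro c hc
    rcases hmem c hc with h | h | h <;> omega
  have hflt : ∀ c, 2 ≤ c → c ≤ k1 + 1 → ∀ d ∈ f c, d < N := fun c h1 h2 d hd =>
    hlt d (hfm c h1 h2 d hd)
  -- the template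
  set τ := p ++ tm N f k1 ++ q with hτ
  have hflat : ∀ V : ℕ → List ℕ, τ.flatMap (hv N f V) = p ++ (asm k1 V).flatMap f ++ q := by
    intro V
    have hfix : ∀ l : List ℕ, (∀ c ∈ l, c ∈ asm k W) → l.flatMap (hv N f V) = l := by
      intro l hl
      apply flat_fix
      intro c hc
      unfold hv
      rw [if_neg (by have := hlt c (hl c hc); omega)]
    rw [hτ, List.flatMap_append, List.flatMap_append, hfix p hp, hfix q hq, tm_flat N f V k1 hflt]
  have hτm : ∀ c ∈ τ, (∃ j ≤ k1, c = N + j) ∨ c ∈ asm k W := by
    intro c hc
    rw [hτ, List.mem_append, List.mem_append] at hc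
    rcases hc with (hc | hc) | hc
    · exact Or.inr (hp c hc)
    · rcases tm_mem N f k1 c hc with h | ⟨d, h1, h2, h3⟩
      · exact Or.inl h
      · exact Or.inr (hfm d h1 h2 c h3)
    · exact Or.inr (hq c hc)
  -- the simple letters of the template
  have hsep : τ.filter (fun c => decide (2 ≤ c ∧ c ≤ k + 1)) = seps k := by
    rw [← filter_sep hWok, ← he, ← hflat U]
    symm
    apply filter_flat
    intro c hc
    rcases hτm c hc with ⟨j, hj, h⟩ | h
    · have h1 : hv N f U c = (U j).flatMap f := by
        unfold hv
        rw [if_pos (by omega)]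
        congr 1
        congr 1
        omega
      rw [h1]
      have h2 : ((U j).flatMap f).filter (fun c => decide (2 ≤ c ∧ c ≤ k + 1)) = [] := by
        rw [List.filter_eq_nil_iff]
        intro d hd
        obtain ⟨e, he1, he2⟩ := List.mem_flatMap.1 hd
        rw [decide_eq_true_iff]
        have h3 : d = 0 ∨ d = 1 := by
          rcases hU j hj e he1 with h4 | h4
          · subst h4
            exact hf d (Or.inl he2)
          · subst h4
            exact hf d (Or.inr he2)
        omega
      have h4 : [c].filter (fun c => decide (2 ≤ c ∧ c ≤ k + 1)) = [] := by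
        rw [List.filter_eq_nil_iff]
        intro d hd
        rw [List.mem_singleton] at hd
        rw [decide_eq_true_iff]
        omega
      rw [h2, h4]
    · have h1 : hv N f U c = [c] := by
        unfold hv
        rw [if_neg (by have := hlt c h; omega)]
      rw [h1]
  obtain ⟨T, hT, hτT⟩ := dec hsep
  have hbig : cat k (fun t => (T t).filter (fun c => decide (N ≤ c))) =
      (List.range (k1 + 1)).map (fun j => N + j) := by
    rw [← asm_big N k (by omega) T k (le_refl k), ← hτT, hτ, List.filter_append,
      List.filter_append, tm_filter N f k1 hflt]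
    have hnil : ∀ l : List ℕ, (∀ c ∈ l, c ∈ asm k W) →
        l.filter (fun c => decide (N ≤ c)) = [] := by
      intro l hl
      rw [List.filter_eq_nil_iff]
      intro c hc
      rw [decide_eq_true_iff]
      have := hlt c (hl c hc)
      omega
    rw [hnil p hp, hnil q hq, List.nil_append, List.append_nil]
  obtain ⟨g, hgm, hgb, hgA⟩ := cat_split N k (k1 + 1) _ hbig
  refine ⟨T, g, ⟨fun i j hij _ => hgm i j hij, fun i _ => hgb i⟩, ?_, hgA, ?_⟩
  · intro t ht c hc
    have hcτ : c ∈ τ := by
      rw [hτT]
      exact mem_asm.2 (Or.inr ⟨t, ht, hc⟩)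
    rcases hτm c hcτ with ⟨j, hj, h⟩ | h
    · exact Or.inr (Or.inr (by omega))
    · rcases hmem c h with h | h | h
      · exact Or.inl h
      · exact Or.inr (Or.inl h)
      · exact absurd h (hT t c hc)
  · intro V _
    rw [← hflat V, hτT]
    apply asm_flat k _ _ T k (le_refl k)
    intro c h1 h2
    unfold hv
    rw [if_neg (by omega)]

end Pool.Agent.MWN.H80
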