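import Pool.Agent.MWN.StmtsH

/-!
Block MWN, row NH8 (MP_23468a_al): without `D 0` the system `S8` holds.
-/

namespace Pool.Agent.MWN.H80

open Pool.Agent.Helper14_MV Pool.Agent.Helper2_MV Pool.Agent.MVO Pool.Agent.MWL Pool.Agent.MWS
  Pool.Agent.MWF Pool.Agent.MWN

/-- exchange of the letters `0` and `1` -/
def sw (c : ℕ) : List ℕ := if c = 0 then [1] else if c = 1 then [0] else [c]

/-- exchange of the letters `0` and `1`, the letter `3` deleted -/
def sw3 (c : ℕ) : List ℕ := if c = 0 then [1] else if c = 1 then [0] else if c = 3 then [] else [c]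

/-- exchange of the letters `0` and `1`, the letter `2` deleted, `3` becomes `2` -/
def sw2 (c : ℕ) : List ℕ :=
  if c = 0 then [1] else if c = 1 then [0] else if c = 2 then [] else if c = 3 then [2] else [c]

/-- two blocks -/
def b2 (l m : List ℕ) : ℕ → List ℕ := fun j => if j = 0 then l else if j = 1 then m else []

theorem two_b2 {l m : List ℕ} (h : ∀ c ∈ l ++ m, c = 0 ∨ c = 1) : Two01 1 (b2 l m) := by
  intro j hj c hc
  have hj' : j = 0 ∨ j = 1 := by omega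
  rcases hj' with rfl | rfl
  · exact h c (List.mem_append_left _ hc)
  · exact h c (List.mem_append_right _ hc)

theorem ok_b2 {l m : List ℕ} (h : ∀ c ∈ l ++ m, c = 0 ∨ c = 1)
    (h0 : 2 ≤ (l ++ m).count 0) (h1 : 2 ≤ (l ++ m).count 1) : OkB 1 (b2 l m) := by
  have e : ∀ c, deg 1 (ty (b2 l m) c) = (l ++ m).count c := by
    intro c
    rw [List.count_append]
    simp [deg, Finset.sum_range_succ, ty, b2]
  constructor
  · intro j hj c hc hs
    have := two_b2 h j hj c hc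
    omega
  · intro j hj c hc
    have h2 := two_b2 h j hj c hc
    have h3 : 2 ≤ deg 1 (ty (b2 l m) c) := by
      rcases h2 with rfl | rfl
      · rw [e]; exact h0
      · rw [e]; exact h1
    exact h3

theorem hst2 {β : FIC} (hB : HB β) {l m l' m' : List ℕ}
    (h : ∀ c ∈ l ++ m, c = 0 ∨ c = 1) (h' : ∀ c ∈ l' ++ m', c = 0 ∨ c = 1)
    (h0 : 2 ≤ (l ++ m).count 0) (h1 : 2 ≤ (l ++ m).count 1)
    (h0' : 2 ≤ (l' ++ m').count 0) (h1' : 2 ≤ (l' ++ m').count 1)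
    (e0 : l.count 0 = l'.count 0 ∨ (2 ≤ l.count 0 ∧ 2 ≤ l'.count 0))
    (e1 : l.count 1 = l'.count 1 ∨ (2 ≤ l.count 1 ∧ 2 ≤ l'.count 1))
    (e2 : m.count 0 = m'.count 0 ∨ (2 ≤ m.count 0 ∧ 2 ≤ m'.count 0))
    (e3 : m.count 1 = m'.count 1 ∨ (2 ≤ m.count 1 ∧ 2 ≤ m'.count 1))
    (s0 : (Fst false l ↔ Fst false l') ∧ (Fst true l ↔ Fst true l'))
    (s1 : (Fst false m ↔ Fst false m') ∧ (Fst true m ↔ Fst true m')) :
    RR β (l ++ 2 :: m) (l' ++ 2 :: m') := by
  have key := hB.hst 1 (b2 l m) (b2 l' m') (ok_b2 h h0 h1) (ok_b2 h' h0' h1') (two_b2 h)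
    (two_b2 h') (by
      intro j hj
      have hj' : j = 0 ∨ j = 1 := by omega
      rcases hj' with rfl | rfl
      · exact e0
      · exact e2) (by
      intro j hj
      have hj' : j = 0 ∨ j = 1 := by omega
      rcases hj' with rfl | rfl
      · exact e1
      · exact e3) (by
      intro j hj _
      have hj' : j = 0 ∨ j = 1 := by omega
      rcases hj' with rfl | rfl
      · exact s0
      · exact s1)
  exact key

theorem nh8 (n1a : N1aStmt) (n2x : N2xStmt) (n3a : N3aStmt) (n3b : N3bStmt) (n3c : N3cStmt)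
    (n3d : N3dStmt) : Nh8Stmt := by
  intro β hB hI hM hD
  have c1t : RR β [0, 0, 1, 2, 1, 1] [0, 1, 0, 2, 1, 1] :=
    RR.sub sw (n1a β hB hI hM hD true)
  have c1f : RR β [1, 0, 0, 2, 1, 1] [0, 1, 0, 2, 1, 1] :=
    RR.sub sw (n1a β hB hI hM hD false)
  have c3at : RR β [0, 1, 1, 2, 0, 3, 1, 1] [1, 0, 1, 2, 0, 3, 1, 1] :=
    RR.sub sw (n3a β hB hI hM hD true)
  have c3af : RR β [1, 1, 0, 2, 0, 3, 1, 1] [1, 0, 1, 2, 0, 3, 1, 1] :=
    RR.sub sw (n3a β hB hI hM hD false)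
  have c3bt : RR β [0, 2, 0, 1, 1, 1, 1] [0, 2, 1, 0, 1, 1, 1] :=
    RR.sub sw3 (n3b β hB hI hM hD true)
  have c3ct : RR β [0, 1, 1, 1, 1, 2, 0] [1, 0, 1, 1, 1, 2, 0] :=
    RR.sub sw2 (n3c β hB hI hM hD true)
  have c3dt : RR β [1, 1, 2, 0, 3, 0, 1, 1] [1, 1, 2, 0, 3, 1, 0, 1] :=
    RR.sub sw (n3d β hB hI hM hD true)
  have c3df : RR β [1, 1, 2, 0, 3, 1, 1, 0] [1, 1, 2, 0, 3, 1, 0, 1] :=
    RR.sub sw (n3d β hB hI hM hD false)
  refine ⟨β.trans c1t (RR.symm c1f), n2x β hB hI hM hD, β.trans c3at (RR.symm c3af), ?_,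
    n3b β hB hI hM hD false, ?_, n3c β hB hI hM hD false, β.trans c3dt (RR.symm c3df)⟩
  · have h1 : RR β ([0] ++ 2 :: [0, 1, 1]) ([0] ++ 2 :: [0, 1, 1, 1, 1]) := by
      apply hst2 hB <;> first | decide | (unfold Fst; decide)
    have h2 : RR β ([0] ++ 2 :: [1, 0, 1]) ([0] ++ 2 :: [1, 0, 1, 1, 1]) := by
      apply hst2 hB <;> first | decide | (unfold Fst; decide)
    exact β.trans h1 (β.trans c3bt (RR.symm h2))
  · have h1 : RR β ([0, 1, 1] ++ 2 :: [0]) ([0, 1, 1, 1, 1] ++ 2 :: [0]) := by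
      apply hst2 hB <;> first | decide | (unfold Fst; decide)
    have h2 : RR β ([1, 0, 1] ++ 2 :: [0]) ([1, 0, 1, 1, 1] ++ 2 :: [0]) := by
      apply hst2 hB <;> first | decide | (unfold Fst; decide)
    exact β.trans h1 (β.trans c3ct (RR.symm h2))

end Pool.Agent.MWN.H80
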